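import Mathlib
import Pool.Agent.R450.CA.Assemble

set_option autoImplicit false

/-! For odd primes the maximal period of additive automata grows by the factor `p` at every
step from `p ^ (m - 1)` to `p ^ m`, `m ≥ 2`. -/

namespace Pool.Agent.Results.MP_25c86d_nt.OddPrimeGrowth

open Polynomial Pool.Agent.R450.CA

/-- the ring `ℤ_n[x]/(x ^ σ - 1)` -/
abbrev R (σ n : ℕ) : Type := AdjoinRoot (X ^ σ - 1 : (ZMod n)[X])

/-- the element `a + b x` of `ℤ_n[x]/(x ^ σ - 1)` -/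
noncomputable def rule (σ n : ℕ) (a b : ZMod n) : R σ n :=
  AdjoinRoot.of (X ^ σ - 1 : (ZMod n)[X]) a +
    AdjoinRoot.of (X ^ σ - 1 : (ZMod n)[X]) b * AdjoinRoot.root (X ^ σ - 1 : (ZMod n)[X])

/-- the period `Π_σ(a,b;n)`: the least `k ≥ 1` with `(a + b x)^(k + ℓ) = (a + b x)^ℓ` for some
`ℓ ≥ 0` -/
noncomputable def period (σ n : ℕ) (a b : ZMod n) : ℕ :=
  sInf {k : ℕ | 1 ≤ k ∧ ∃ l : ℕ, rule σ n a b ^ (k + l) = rule σ n a b ^ l}

/-- `π_σ(n)`, the maximum of the periods over all `a, b` -/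
noncomputable def piMax (σ n : ℕ) : ℕ := sSup {k : ℕ | ∃ a b : ZMod n, k = period σ n a b}

theorem period_eq {p s m : ℕ} (a b : ℤ) :
    period s (p ^ m) (a : ZMod (p ^ m)) (b : ZMod (p ^ m)) = per p s m a b := by
  unfold period per
  congr 1
  ext k
  change (1 ≤ k ∧ ∃ l : ℕ, _) ↔ (1 ≤ k ∧ ∃ l : ℕ, _)
  refine and_congr_right fun _ => exists_congr fun l => ?_
  have e : rule s (p ^ m) (a : ZMod (p ^ m)) (b : ZMod (p ^ m)) =
      AdjoinRoot.mk (X ^ s - 1 : (ZMod (p ^ m))[X]) (red (p ^ m) (Lin a b)) := by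
    rw [red_Lin, map_add, map_mul]
    rfl
  rw [e, in_iff, ← map_pow (AdjoinRoot.mk (X ^ s - 1 : (ZMod (p ^ m))[X])),
    ← map_pow (AdjoinRoot.mk (X ^ s - 1 : (ZMod (p ^ m))[X])), AdjoinRoot.mk_eq_mk]
  have e2 : red (p ^ m) (Lin a b ^ l * (Lin a b ^ k - 1)) =
      red (p ^ m) (Lin a b) ^ (k + l) - red (p ^ m) (Lin a b) ^ l := by
    rw [map_mul, map_sub, map_pow, map_pow, map_one, pow_add]
    ring
  rw [e2]

theorem greatest {p s m : ℕ} (hp : p.Prime) :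
    (∃ a b : ℤ, per p s m a b = piMax s (p ^ m)) ∧
      ∀ a b : ℤ, per p s m a b ≤ piMax s (p ^ m) := by
  have hne : NeZero (p ^ m) := ⟨(pow_pos hp.pos m).ne'⟩
  have hfin : {k : ℕ | ∃ a b : ZMod (p ^ m), k = period s (p ^ m) a b}.Finite := by
    have h1 : {k : ℕ | ∃ a b : ZMod (p ^ m), k = period s (p ^ m) a b} =
        Set.range (fun x : ZMod (p ^ m) × ZMod (p ^ m) => period s (p ^ m) x.1 x.2) := by
      ext k
      constructor
      · rintro ⟨a, b, rfl⟩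
        exact ⟨(a, b), rfl⟩
      · rintro ⟨⟨a, b⟩, rfl⟩
        exact ⟨a, b, rfl⟩
    rw [h1]
    exact Set.finite_range _
  have hbdd : BddAbove {k : ℕ | ∃ a b : ZMod (p ^ m), k = period s (p ^ m) a b} := hfin.bddAbove
  constructor
  · have h1 : piMax s (p ^ m) ∈ {k : ℕ | ∃ a b : ZMod (p ^ m), k = period s (p ^ m) a b} :=
      Nat.sSup_mem ⟨_, 0, 0, rfl⟩ hbdd
    obtain ⟨a, b, hab⟩ := h1
    obtain ⟨a, rfl⟩ := ZMod.intCast_surjective a
    obtain ⟨b, rfl⟩ := ZMod.intCast_surjective b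
    refine ⟨a, b, ?_⟩
    rw [hab, period_eq]
  · intro a b
    rw [← period_eq]
    exact le_csSup hbdd ⟨_, _, rfl⟩

theorem main {p s : ℕ} (hp : p.Prime) (hp2 : p ≠ 2) (hs0 : 1 ≤ s) (m : ℕ) :
    piMax s (p ^ (m + 1)) = p ^ m * piMax s p := by
  have h1 := greatest (p := p) (s := s) (m := 1) hp
  rw [pow_one] at h1
  apply le_antisymm
  · induction m with
    | zero => simp
    | succ m ih =>
      obtain ⟨a, b, hab⟩ := (greatest (p := p) (s := s) (m := m + 2) hp).1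
      calc piMax s (p ^ (m + 2)) = per p s (m + 2) a b := hab.symm
        _ ≤ p * per p s (m + 1) a b := per_le hp hp2 hs0 a b
        _ ≤ p * piMax s (p ^ (m + 1)) :=
          Nat.mul_le_mul_left _ ((greatest (p := p) (s := s) (m := m + 1) hp).2 a b)
        _ ≤ p * (p ^ m * piMax s p) := Nat.mul_le_mul_left _ ih
        _ = p ^ (m + 1) * piMax s p := by rw [pow_succ]; ring
  · obtain ⟨a, b, hab, hn⟩ := exists_good hp hp2 hs0 h1.2 h1.1
    calc p ^ m * piMax s p = p ^ m * per p s 1 a b := by rw [hab]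
      _ = per p s (m + 1) a b := (per_growth hp hp2 hs0 hn m).symm
      _ ≤ piMax s (p ^ (m + 1)) := (greatest (p := p) (s := s) (m := m + 1) hp).2 a b

/-- For every odd prime `p`, every spatial period `σ ≥ 1` and every `m ≥ 1` one has
`π_σ(p^m) = p^(m-1) π_σ(p)`; hence a strict inequality `π_σ(p^m) < p π_σ(p^(m-1))` with
`m ≥ 2` forces `p = 2`. -/
theorem result :
    (∀ p σ m : ℕ, p.Prime → 1 ≤ σ → 2 ≤ m →
      piMax σ (p ^ m) < p * piMax σ (p ^ (m - 1)) → p = 2) ∧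
    (∀ p σ m : ℕ, p.Prime → p ≠ 2 → 1 ≤ σ → 1 ≤ m →
      piMax σ (p ^ m) = p ^ (m - 1) * piMax σ p) := by
  constructor
  · intro p σ m hp hσ hm hlt
    by_contra hp2
    obtain ⟨m, rfl⟩ : ∃ j, m = j + 2 := ⟨m - 2, by omega⟩
    have h1 := main hp hp2 hσ (m + 1)
    have h2 := main hp hp2 hσ m
    rw [show m + 2 - 1 = m + 1 from rfl, h2, h1, ← mul_assoc, ← pow_succ'] at hlt
    exact lt_irrefl _ hlt
  · intro p σ m hp hp2 hσ hm
    obtain ⟨m, rfl⟩ : ∃ j, m = j + 1 := ⟨m - 1, by omega⟩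
    exact main hp hp2 hσ m

end Pool.Agent.Results.MP_25c86d_nt.OddPrimeGrowth
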